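import Mathlib

/-!
# Project GS5 (helper38): mean values of entire functions on vertical lines (helper6)
-/

set_option autoImplicit false

open MeasureTheory Set Filter Topology
open scoped ENNReal Real

namespace Pool.Agent.J4H6.GS5

noncomputable section

/-- the mean value over a circle -/
theorem circ_mean {h : ℂ → ℂ} (hh : Differentiable ℂ h) (w : ℂ) (ρ : ℝ) :
    ENNReal.ofReal (2 * π) * ‖h w‖ₑ ^ 2 ≤
      ∫⁻ θ in Ioo (-π) π, ‖h (w + ρ * (Real.cos θ + Real.sin θ * Complex.I))‖ₑ ^ 2 := by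
  have hg : Differentiable ℂ (fun z => h z ^ 2) := hh.pow 2
  have h1 : Real.circleAverage (fun z => h z ^ 2) w ρ = h w ^ 2 := hg.diffContOnCl.circleAverage
  rw [Real.circleAverage_eq_integral_add (-π)] at h1
  have h2 : (∫ θ in (0 : ℝ)..2 * π, h (circleMap w ρ (θ + -π)) ^ 2) =
      ∫ θ in (-π)..π, h (circleMap w ρ θ) ^ 2 := by
    rw [intervalIntegral.integral_comp_add_right (fun θ => h (circleMap w ρ θ) ^ 2)]
    congr 1
    · ring
    · ring
  rw [h2] at h1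
  have hcont : Continuous (fun θ : ℝ => ‖h (circleMap w ρ θ)‖ ^ 2) := by
    have := hh.continuous
    fun_prop
  have h3 : 2 * π * ‖h w‖ ^ 2 ≤ ∫ θ in (-π)..π, ‖h (circleMap w ρ θ)‖ ^ 2 := by
    have hpi := Real.pi_pos
    have h4 : ‖h w‖ ^ 2 = ‖(2 * π)⁻¹ • ∫ θ in (-π)..π, h (circleMap w ρ θ) ^ 2‖ := by
      rw [h1, norm_pow]
    rw [h4, norm_smul, Real.norm_eq_abs, abs_of_pos (by positivity), ← mul_assoc,
      mul_inv_cancel₀ (by positivity), one_mul]
    refine (intervalIntegral.norm_integral_le_integral_norm (by linarith)).trans (le_of_eq ?_)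
    simp only [norm_pow]
  have h5 := ENNReal.ofReal_le_ofReal h3
  have hpi := Real.pi_pos
  rw [ENNReal.ofReal_mul (by positivity), ENNReal.ofReal_pow (norm_nonneg _), ofReal_norm,
    intervalIntegral.integral_of_le (by linarith),
    ofReal_integral_eq_lintegral_ofReal (hcont.continuousOn.integrableOn_Icc.mono_set
      Ioc_subset_Icc_self) (ae_of_all _ fun θ => by positivity),
    ← restrict_Ioo_eq_restrict_Ioc] at h5
  refine h5.trans (le_of_eq ?_)
  refine lintegral_congr fun θ => ?_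
  rw [ENNReal.ofReal_pow (norm_nonneg _), ofReal_norm]
  congr 3
  rw [circleMap, Complex.exp_mul_I, ← Complex.ofReal_cos, ← Complex.ofReal_sin]

/-- the mean value over a disc -/
theorem area_mean {h : ℂ → ℂ} (hh : Differentiable ℂ h) (w : ℂ) {r : ℝ} (hr : 0 < r) :
    ENNReal.ofReal (π * r ^ 2) * ‖h w‖ₑ ^ 2 ≤
      ∫⁻ p : ℝ × ℝ in {p | p.1 ^ 2 + p.2 ^ 2 < r ^ 2}, ‖h (w + (p.1 + p.2 * Complex.I))‖ₑ ^ 2 := by
  set D : Set (ℝ × ℝ) := {p | p.1 ^ 2 + p.2 ^ 2 < r ^ 2} with hD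
  have hDm : MeasurableSet D := measurableSet_lt (by fun_prop) (by fun_prop)
  set G : ℝ × ℝ → ℝ≥0∞ := fun p => ‖h (w + (p.1 + p.2 * Complex.I))‖ₑ ^ 2 with hG
  have hGm : Measurable G := by
    have := hh.continuous
    have h2 : Continuous (fun p : ℝ × ℝ => h (w + (p.1 + p.2 * Complex.I))) := by fun_prop
    exact h2.measurable.enorm.pow_const 2
  rw [← lintegral_indicator hDm, ← lintegral_comp_polarCoord_symm]
  have hsub : Ioo (0 : ℝ) r ×ˢ Ioo (-π) π ⊆ polarCoord.target := by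
    rw [polarCoord_target]
    exact prod_mono Ioo_subset_Ioi_self (subset_refl _)
  refine le_trans ?_ (lintegral_mono_set hsub)
  have hS : MeasurableSet (Ioo (0 : ℝ) r ×ˢ Ioo (-π) π) := measurableSet_Ioo.prod measurableSet_Ioo
  have e1 : ∫⁻ p in Ioo (0 : ℝ) r ×ˢ Ioo (-π) π,
      ENNReal.ofReal p.1 • D.indicator G (polarCoord.symm p) =
      ∫⁻ p in Ioo (0 : ℝ) r ×ˢ Ioo (-π) π,
        ENNReal.ofReal p.1 * ‖h (w + p.1 * (Real.cos p.2 + Real.sin p.2 * Complex.I))‖ₑ ^ 2 := by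
    refine setLIntegral_congr_fun hS fun p hp => ?_
    obtain ⟨⟨hp1, hp2⟩, -⟩ := hp
    have hmem : polarCoord.symm p ∈ D := by
      rw [polarCoord_symm_apply, hD]
      show (p.1 * Real.cos p.2) ^ 2 + (p.1 * Real.sin p.2) ^ 2 < r ^ 2
      have h3 := Real.sin_sq_add_cos_sq p.2
      have h4 : (p.1 * Real.cos p.2) ^ 2 + (p.1 * Real.sin p.2) ^ 2 = p.1 ^ 2 := by
        calc _ = p.1 ^ 2 * (Real.sin p.2 ^ 2 + Real.cos p.2 ^ 2) := by ring
          _ = _ := by rw [h3, mul_one]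
      rw [h4]
      exact pow_lt_pow_left₀ hp2 hp1.le (by norm_num)
    simp only [smul_eq_mul]
    rw [indicator_of_mem hmem, hG, polarCoord_symm_apply]
    simp only
    congr 4
    push_cast
    ring
  rw [e1]
  have hFm : Measurable (fun p : ℝ × ℝ =>
      ENNReal.ofReal p.1 * ‖h (w + p.1 * (Real.cos p.2 + Real.sin p.2 * Complex.I))‖ₑ ^ 2) := by
    have := hh.continuous
    have h2 : Continuous (fun p : ℝ × ℝ =>
        h (w + p.1 * (Real.cos p.2 + Real.sin p.2 * Complex.I))) := by fun_prop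
    exact (ENNReal.measurable_ofReal.comp measurable_fst).mul (h2.measurable.enorm.pow_const 2)
  rw [Measure.volume_eq_prod, ← Measure.prod_restrict, lintegral_prod _ hFm.aemeasurable]
  have h6 : ∀ ρ : ℝ, ENNReal.ofReal ρ * (ENNReal.ofReal (2 * π) * ‖h w‖ₑ ^ 2) ≤
      ∫⁻ θ in Ioo (-π) π,
        ENNReal.ofReal ρ * ‖h (w + ρ * (Real.cos θ + Real.sin θ * Complex.I))‖ₑ ^ 2 := by
    intro ρ
    rw [lintegral_const_mul' _ _ ENNReal.ofReal_ne_top]
    exact mul_le_mul_right (circ_mean hh w ρ) _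
  refine le_trans ?_ (lintegral_mono h6)
  rw [lintegral_mul_const _ ENNReal.measurable_ofReal]
  have h7 : ∫⁻ ρ in Ioo (0 : ℝ) r, ENNReal.ofReal ρ = ENNReal.ofReal (r ^ 2 / 2) := by
    rw [restrict_Ioo_eq_restrict_Ioc, ← ofReal_integral_eq_lintegral_ofReal]
    · rw [← intervalIntegral.integral_of_le hr.le, integral_id]
      congr 1
      ring
    · exact (continuous_id.continuousOn.integrableOn_Icc).mono_set Ioc_subset_Icc_self
    · filter_upwards [ae_restrict_mem measurableSet_Ioc] with ρ hρ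
      exact hρ.1.le
  rw [h7, ← mul_assoc, ← ENNReal.ofReal_mul (by positivity)]
  refine le_of_eq ?_
  congr 2
  ring

/-- the mean square on a line is at most that on a rectangle -/
theorem line_le {h : ℂ → ℂ} (hh : Differentiable ℂ h) (β τ a b : ℝ) {r : ℝ} (hr : 0 < r) :
    ENNReal.ofReal (π * r ^ 2) * ∫⁻ t in Icc a b, ‖h (β + (τ + t) * Complex.I)‖ₑ ^ 2 ≤
      ENNReal.ofReal (2 * r) * ∫⁻ u in Icc (β - r) (β + r),
        ∫⁻ v in Icc (a + τ - r) (b + τ + r), ‖h (u + v * Complex.I)‖ₑ ^ 2 := by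
  have hc := hh.continuous
  set D : Set (ℝ × ℝ) := {p | p.1 ^ 2 + p.2 ^ 2 < r ^ 2} with hD
  have hDm : MeasurableSet D := measurableSet_lt (by fun_prop) (by fun_prop)
  set M : ℝ → ℝ≥0∞ := fun u => ∫⁻ v in Icc (a + τ - r) (b + τ + r), ‖h (u + v * Complex.I)‖ₑ ^ 2
    with hM
  have hm2 : Measurable (Function.uncurry fun (u v : ℝ) => ‖h (u + v * Complex.I)‖ₑ ^ 2) := by
    have h2 : Continuous (fun p : ℝ × ℝ => h (p.1 + p.2 * Complex.I)) := by fun_prop
    exact h2.measurable.enorm.pow_const 2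
  have hMm : Measurable M := hm2.lintegral_prod_right'
  rw [← lintegral_const_mul' _ _ ENNReal.ofReal_ne_top]
  have h1 : ∀ t : ℝ, ENNReal.ofReal (π * r ^ 2) * ‖h (β + (τ + t) * Complex.I)‖ₑ ^ 2 ≤
      ∫⁻ p in D, ‖h ((β + (τ + t) * Complex.I) + (p.1 + p.2 * Complex.I))‖ₑ ^ 2 :=
    fun t => area_mean hh _ hr
  refine (lintegral_mono h1).trans ?_
  have hm3 : Measurable (Function.uncurry fun (t : ℝ) (p : ℝ × ℝ) =>
      ‖h ((β + (τ + t) * Complex.I) + (p.1 + p.2 * Complex.I))‖ₑ ^ 2) := by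
    have h2 : Continuous (fun q : ℝ × (ℝ × ℝ) =>
        h ((β + (τ + q.1) * Complex.I) + (q.2.1 + q.2.2 * Complex.I))) := by fun_prop
    exact h2.measurable.enorm.pow_const 2
  rw [lintegral_lintegral_swap hm3.aemeasurable]
  have h2 : ∀ p ∈ D, ∫⁻ t in Icc a b,
      ‖h ((β + (τ + t) * Complex.I) + (p.1 + p.2 * Complex.I))‖ₑ ^ 2 ≤ M (β + p.1) := by
    intro p hp
    have hp2 : |p.2| < r := by
      have h3 : p.2 ^ 2 < r ^ 2 := by
        have : p.1 ^ 2 + p.2 ^ 2 < r ^ 2 := hp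
        nlinarith [sq_nonneg p.1]
      exact abs_lt_of_sq_lt_sq h3 hr.le
    rw [abs_lt] at hp2
    set F : ℝ → ℝ≥0∞ := fun v => ‖h (((β + p.1 : ℝ) : ℂ) + v * Complex.I)‖ₑ ^ 2 with hF
    have e1 : ∫⁻ t in Icc a b, ‖h ((β + (τ + t) * Complex.I) + (p.1 + p.2 * Complex.I))‖ₑ ^ 2 =
        ∫⁻ t, (Icc (a + τ - r) (b + τ + r)).indicator F (t + (τ + p.2)) * (Icc a b).indicator 1 t := by
      rw [← lintegral_indicator measurableSet_Icc]
      refine lintegral_congr fun t => ?_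
      by_cases ht : t ∈ Icc a b
      · rw [indicator_of_mem ht, indicator_of_mem ht, Pi.one_apply, mul_one, indicator_of_mem]
        · rw [hF]
          simp only
          congr 3
          push_cast
          ring
        · obtain ⟨h4, h5⟩ := ht
          constructor <;> linarith
      · rw [indicator_of_notMem ht, indicator_of_notMem ht, mul_zero]
    rw [e1]
    calc ∫⁻ t, (Icc (a + τ - r) (b + τ + r)).indicator F (t + (τ + p.2)) *
          (Icc a b).indicator 1 t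
        ≤ ∫⁻ t, (Icc (a + τ - r) (b + τ + r)).indicator F (t + (τ + p.2)) := by
          refine lintegral_mono fun t => ?_
          refine mul_le_of_le_one_right' ?_
          exact indicator_le_self' (fun _ _ => zero_le) t
      _ = ∫⁻ t, (Icc (a + τ - r) (b + τ + r)).indicator F t :=
          lintegral_add_right_eq_self _ _
      _ = M (β + p.1) := by
          rw [lintegral_indicator measurableSet_Icc]
  refine (setLIntegral_mono' hDm h2).trans ?_
  have hsub : D ⊆ Icc (-r) r ×ˢ Icc (-r) r := by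
    intro p hp
    have : p.1 ^ 2 + p.2 ^ 2 < r ^ 2 := hp
    have h3 : |p.1| < r := abs_lt_of_sq_lt_sq (by nlinarith [sq_nonneg p.2]) hr.le
    have h4 : |p.2| < r := abs_lt_of_sq_lt_sq (by nlinarith [sq_nonneg p.1]) hr.le
    rw [abs_lt] at h3 h4
    exact ⟨⟨h3.1.le, h3.2.le⟩, ⟨h4.1.le, h4.2.le⟩⟩
  refine (lintegral_mono_set hsub).trans ?_
  have hMm2 : Measurable (fun p : ℝ × ℝ => M (β + p.1)) := hMm.comp (by fun_prop)
  have hMm1 : Measurable (fun x : ℝ => M (β + x)) := hMm.comp (by fun_prop)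
  rw [Measure.volume_eq_prod, ← Measure.prod_restrict, lintegral_prod _ hMm2.aemeasurable]
  simp only [lintegral_const, Measure.restrict_apply MeasurableSet.univ, univ_inter,
    Real.volume_Icc]
  rw [lintegral_mul_const _ hMm1, mul_comm]
  refine le_of_eq ?_
  congr 1
  · congr 1
    ring
  · have e9 := lintegral_add_left_eq_self (μ := volume) ((Icc (β - r) (β + r)).indicator M) β
    rw [lintegral_indicator measurableSet_Icc] at e9
    rw [← e9, ← lintegral_indicator measurableSet_Icc]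
    refine lintegral_congr fun u => ?_
    by_cases hu : u ∈ Icc (-r) r
    · rw [indicator_of_mem hu, indicator_of_mem]
      obtain ⟨h4, h5⟩ := hu
      constructor <;> linarith
    · rw [indicator_of_notMem hu, indicator_of_notMem]
      intro h6
      apply hu
      obtain ⟨h4, h5⟩ := h6
      constructor <;> linarith

end

end Pool.Agent.J4H6.GS5

namespace Pool.Agent.J4H6.GS5

noncomputable section

/-- the mean value over almost every element of a family -/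
theorem ae_lines {Ω : Type} [MeasurableSpace Ω] (μ : Measure Ω) [SFinite μ] (h : ℕ → Ω → ℂ → ℂ)
    (x₀ x₁ c ε K : ℝ) (hx₀ : 1 / 2 < x₀) (hx : x₀ ≤ x₁) (hε : 0 < ε) (hK : 0 ≤ K)
    (hd : ∀ᵐ ω ∂μ, ∀ j, Differentiable ℂ (h j ω))
    (hm : ∀ j, AEMeasurable (fun p : Ω × (ℝ × ℝ) => ‖h j p.1 (p.2.1 + p.2.2 * Complex.I)‖ₑ ^ 2)
      (μ.prod (volume.restrict {p : ℝ × ℝ | 1 / 2 < p.1})))
    (hb : ∀ (j : ℕ) (v : ℂ), (1 / 2 + x₀) / 2 ≤ v.re →
      ∫⁻ ω, ‖h j ω v‖ₑ ^ 2 ∂μ ≤ ENNReal.ofReal (K * (2 : ℝ) ^ (-c * j))) :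
    ∀ᵐ ω ∂μ, ∀ Y : ℝ, ∃ C : ℝ, 0 ≤ C ∧ ∀ (j : ℕ) (b : ℂ), x₀ ≤ b.re → b.re ≤ x₁ → |b.im| ≤ Y →
      ∫ t in ((2 : ℝ) ^ j)..(2 ^ (j + 1)), ‖h j ω (b + t * Complex.I)‖ ^ 2 ≤
        C * (2 : ℝ) ^ (j * (1 - c + ε)) := by
  set r : ℝ := min ((x₀ - 1 / 2) / 2) 1 with hr
  have hr0 : 0 < r := lt_min (by linarith) one_pos
  have hr1 : r ≤ 1 := min_le_right _ _
  have hr2 : r ≤ (x₀ - 1 / 2) / 2 := min_le_left _ _
  set B : ℕ → ℕ → Set (ℝ × ℝ) := fun j Y =>
    Icc (x₀ - r) (x₁ + r) ×ˢ Icc ((2 : ℝ) ^ j - Y - r) (2 ^ (j + 1) + Y + r) with hB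
  have hBm : ∀ j Y, MeasurableSet (B j Y) := fun j Y => measurableSet_Icc.prod measurableSet_Icc
  have hBsub : ∀ j Y, B j Y ⊆ {p : ℝ × ℝ | 1 / 2 < p.1} := by
    intro j Y p hp
    have := hp.1.1
    show 1 / 2 < p.1
    linarith
  have hBvol : ∀ j Y, volume (B j Y) ≤
      ENNReal.ofReal ((x₁ - x₀ + 2) * ((2 * Y + 3) * (2 : ℝ) ^ j)) := by
    intro j Y
    rw [hB]
    simp only
    rw [Measure.volume_eq_prod, Measure.prod_prod, Real.volume_Icc, Real.volume_Icc,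
      ← ENNReal.ofReal_mul (by linarith)]
    apply ENNReal.ofReal_le_ofReal
    have h2j : (1 : ℝ) ≤ 2 ^ j := one_le_pow₀ (by norm_num)
    have hY : (0 : ℝ) ≤ Y := Nat.cast_nonneg Y
    have h3 : (2 : ℝ) ^ (j + 1) = 2 * 2 ^ j := by ring
    rw [h3]
    refine mul_le_mul (by linarith) ?_ ?_ (by linarith)
    · nlinarith
    · nlinarith
  set J : ℕ → ℕ → Ω → ℝ≥0∞ := fun j Y ω =>
    ∫⁻ p in B j Y, ‖h j ω (p.1 + p.2 * Complex.I)‖ₑ ^ 2 with hJ
  have hmB : ∀ j Y, AEMeasurable (Function.uncurry fun (ω : Ω) (p : ℝ × ℝ) =>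
      ‖h j ω (p.1 + p.2 * Complex.I)‖ₑ ^ 2) (μ.prod (volume.restrict (B j Y))) := by
    intro j Y
    refine (hm j).mono_ac ?_
    exact Measure.AbsolutelyContinuous.prod Measure.AbsolutelyContinuous.rfl
      (Measure.absolutelyContinuous_of_le (Measure.restrict_mono (hBsub j Y) le_rfl))
  have hJm : ∀ j Y, AEMeasurable (J j Y) μ := fun j Y => (hmB j Y).lintegral_prod_right'
  have hJi : ∀ j Y, ∫⁻ ω, J j Y ω ∂μ ≤ ENNReal.ofReal (K * (2 : ℝ) ^ (-c * j) *
      ((x₁ - x₀ + 2) * ((2 * Y + 3) * (2 : ℝ) ^ j))) := by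
    intro j Y
    rw [hJ]
    simp only
    rw [lintegral_lintegral_swap (hmB j Y)]
    calc ∫⁻ p in B j Y, ∫⁻ ω, ‖h j ω (p.1 + p.2 * Complex.I)‖ₑ ^ 2 ∂μ
        ≤ ∫⁻ _ in B j Y, ENNReal.ofReal (K * (2 : ℝ) ^ (-c * j)) := by
          refine setLIntegral_mono' (hBm j Y) fun p hp => hb j _ ?_
          have h1 := hp.1.1
          have e : ((p.1 : ℂ) + p.2 * Complex.I).re = p.1 := by simp
          rw [e]
          linarith
      _ = ENNReal.ofReal (K * (2 : ℝ) ^ (-c * j)) * volume (B j Y) := by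
          rw [setLIntegral_const]
      _ ≤ ENNReal.ofReal (K * (2 : ℝ) ^ (-c * j)) *
          ENNReal.ofReal ((x₁ - x₀ + 2) * ((2 * Y + 3) * (2 : ℝ) ^ j)) := by
          gcongr
          exact hBvol j Y
      _ = _ := by rw [← ENNReal.ofReal_mul (by positivity)]
  set S : ℕ → Ω → ℝ≥0∞ := fun Y ω =>
    ∑' j : ℕ, ENNReal.ofReal ((2 : ℝ) ^ (-((j : ℝ) * (1 - c + ε)))) * J j Y ω with hS
  have hSm : ∀ Y j : ℕ, AEMeasurable (fun ω =>
      ENNReal.ofReal ((2 : ℝ) ^ (-((j : ℝ) * (1 - c + ε)))) * J j Y ω) μ :=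
    fun Y j => (hJm j Y).const_mul _
  have hSi : ∀ Y, ∫⁻ ω, S Y ω ∂μ ≠ ⊤ := by
    intro Y
    rw [hS]
    simp only
    rw [lintegral_tsum (fun j => hSm Y j)]
    have hs : Summable (fun j : ℕ => K * ((x₁ - x₀ + 2) * (2 * Y + 3)) * ((2 : ℝ) ^ (-ε)) ^ j) := by
      refine Summable.mul_left _ (summable_geometric_of_lt_one (by positivity) ?_)
      exact Real.rpow_lt_one_of_one_lt_of_neg (by norm_num) (by linarith)
    have hle : ∀ j : ℕ, ∫⁻ ω, ENNReal.ofReal ((2 : ℝ) ^ (-((j : ℝ) * (1 - c + ε)))) * J j Y ω ∂μ ≤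
        ENNReal.ofReal (K * ((x₁ - x₀ + 2) * (2 * Y + 3)) * ((2 : ℝ) ^ (-ε)) ^ j) := by
      intro j
      rw [lintegral_const_mul'' _ (hJm j Y)]
      refine (mul_le_mul_right (hJi j Y) _).trans ?_
      rw [← ENNReal.ofReal_mul (by positivity)]
      apply le_of_eq
      congr 1
      have e1 : ((2 : ℝ) ^ (-ε)) ^ j = (2 : ℝ) ^ (-ε * j) := by
        rw [Real.rpow_mul (by norm_num), Real.rpow_natCast]
      have e2 : (2 : ℝ) ^ (-ε * j) = (2 : ℝ) ^ (-(j * (1 - c + ε))) * (2 : ℝ) ^ (-c * j) *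
          (2 : ℝ) ^ (j : ℝ) := by
        rw [← Real.rpow_add (by norm_num), ← Real.rpow_add (by norm_num)]
        congr 1
        ring
      rw [e1, e2, Real.rpow_natCast]
      ring
    refine ne_top_of_le_ne_top ?_ (ENNReal.tsum_le_tsum hle)
    rw [← ENNReal.ofReal_tsum_of_nonneg (fun j => ?_) hs]
    · exact ENNReal.ofReal_ne_top
    · have : (0 : ℝ) ≤ x₁ - x₀ + 2 := by linarith
      positivity
  have hSae : ∀ᵐ ω ∂μ, ∀ Y : ℕ, S Y ω < ⊤ := by
    rw [ae_all_iff]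
    intro Y
    exact ae_lt_top' (AEMeasurable.tsum fun j => hSm Y j) (hSi Y)
  filter_upwards [hd, hSae] with ω hdω hω Y₀
  set Y : ℕ := ⌈|Y₀|⌉₊ with hY
  have hYY : |Y₀| ≤ Y := Nat.le_ceil _
  refine ⟨2 * r / (π * r ^ 2) * (S Y ω).toReal, by positivity, fun j b hb0 hb1 hb2 => ?_⟩
  have hbY : |b.im| ≤ Y := hb2.trans ((le_abs_self _).trans hYY)
  rw [abs_le] at hbY
  have hcont := (hdω j).continuous
  have hline := line_le (hdω j) b.re b.im ((2 : ℝ) ^ j) (2 ^ (j + 1)) hr0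
  set F : ℝ → ℝ → ℝ≥0∞ := fun u v => ‖h j ω (u + v * Complex.I)‖ₑ ^ 2 with hF
  have hFm : Measurable (Function.uncurry F) := by
    have h2 : Continuous (fun p : ℝ × ℝ => h j ω (p.1 + p.2 * Complex.I)) := by fun_prop
    exact h2.measurable.enorm.pow_const 2
  have hJle : (∫⁻ u in Icc (b.re - r) (b.re + r), ∫⁻ v in Icc ((2 : ℝ) ^ j + b.im - r)
      (2 ^ (j + 1) + b.im + r), F u v) ≤ J j Y ω := by
    have e1 : J j Y ω = ∫⁻ u in Icc (x₀ - r) (x₁ + r), ∫⁻ v in Icc ((2 : ℝ) ^ j - Y - r)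
        (2 ^ (j + 1) + Y + r), F u v := by
      rw [hJ]
      simp only
      rw [hB]
      simp only
      rw [Measure.volume_eq_prod, ← Measure.prod_restrict]
      exact lintegral_prod (Function.uncurry F) hFm.aemeasurable
    rw [e1]
    have s1 : Icc (b.re - r) (b.re + r) ⊆ Icc (x₀ - r) (x₁ + r) :=
      Icc_subset_Icc (by linarith) (by linarith)
    have s2 : Icc ((2 : ℝ) ^ j + b.im - r) (2 ^ (j + 1) + b.im + r) ⊆
        Icc ((2 : ℝ) ^ j - Y - r) (2 ^ (j + 1) + Y + r) :=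
      Icc_subset_Icc (by linarith) (by linarith)
    refine (lintegral_mono_set s1).trans ?_
    refine lintegral_mono fun u => ?_
    exact lintegral_mono_set s2
  have hJS : J j Y ω ≤ ENNReal.ofReal ((2 : ℝ) ^ (j * (1 - c + ε)) * (S Y ω).toReal) := by
    have h1 : ENNReal.ofReal ((2 : ℝ) ^ (-((j : ℝ) * (1 - c + ε)))) * J j Y ω ≤ S Y ω :=
      ENNReal.le_tsum j
    have h2 : J j Y ω = ENNReal.ofReal ((2 : ℝ) ^ (j * (1 - c + ε))) *
        (ENNReal.ofReal ((2 : ℝ) ^ (-((j : ℝ) * (1 - c + ε)))) * J j Y ω) := by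
      rw [← mul_assoc, ← ENNReal.ofReal_mul (by positivity), ← Real.rpow_add (by norm_num),
        add_neg_cancel, Real.rpow_zero, ENNReal.ofReal_one, one_mul]
    rw [h2, ENNReal.ofReal_mul (by positivity), ENNReal.ofReal_toReal (hω Y).ne]
    exact mul_le_mul_right h1 _
  set Q : ℝ := ∫ t in ((2 : ℝ) ^ j)..(2 ^ (j + 1)), ‖h j ω (b + t * Complex.I)‖ ^ 2 with hQ
  have h2j : (2 : ℝ) ^ j ≤ 2 ^ (j + 1) := pow_le_pow_right₀ (by norm_num) (Nat.le_succ j)
  have hQle : ENNReal.ofReal Q ≤ ∫⁻ t in Icc ((2 : ℝ) ^ j) (2 ^ (j + 1)),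
      ‖h j ω (b.re + (b.im + t) * Complex.I)‖ₑ ^ 2 := by
    have hc : Continuous (fun t : ℝ => ‖h j ω (b + t * Complex.I)‖ ^ 2) := by fun_prop
    rw [hQ, intervalIntegral.integral_of_le h2j, ofReal_integral_eq_lintegral_ofReal
      (hc.continuousOn.integrableOn_Icc.mono_set Ioc_subset_Icc_self)
      (ae_of_all _ fun t => by positivity)]
    refine (lintegral_mono_set Ioc_subset_Icc_self).trans (le_of_eq ?_)
    refine lintegral_congr fun t => ?_
    rw [ENNReal.ofReal_pow (norm_nonneg _), ofReal_norm]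
    congr 3
    conv_lhs => rw [← Complex.re_add_im b]
    ring
  have hfin : ENNReal.ofReal (π * r ^ 2 * Q) ≤
      ENNReal.ofReal (2 * r * ((2 : ℝ) ^ (j * (1 - c + ε)) * (S Y ω).toReal)) := by
    rw [ENNReal.ofReal_mul (by positivity), ENNReal.ofReal_mul (p := 2 * r) (by positivity)]
    calc ENNReal.ofReal (π * r ^ 2) * ENNReal.ofReal Q
        ≤ ENNReal.ofReal (π * r ^ 2) * ∫⁻ t in Icc ((2 : ℝ) ^ j) (2 ^ (j + 1)),
          ‖h j ω (b.re + (b.im + t) * Complex.I)‖ₑ ^ 2 := mul_le_mul_right hQle _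
      _ ≤ _ := hline
      _ ≤ ENNReal.ofReal (2 * r) * J j Y ω := mul_le_mul_right hJle _
      _ ≤ _ := mul_le_mul_right hJS _
  rw [ENNReal.ofReal_le_ofReal_iff (by positivity)] at hfin
  have hpr : 0 < π * r ^ 2 := by positivity
  calc Q = π * r ^ 2 * Q / (π * r ^ 2) := by field_simp
    _ ≤ 2 * r * ((2 : ℝ) ^ (j * (1 - c + ε)) * (S Y ω).toReal) / (π * r ^ 2) := by gcongr
    _ = 2 * r / (π * r ^ 2) * (S Y ω).toReal * (2 : ℝ) ^ (j * (1 - c + ε)) := by ring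

end

end Pool.Agent.J4H6.GS5

namespace Pool.Agent.J4H6.GS5

noncomputable section

theorem enorm_add_sq (a b : ℂ) : ‖a + b‖ₑ ^ 2 ≤ 2 * ‖a‖ₑ ^ 2 + 2 * ‖b‖ₑ ^ 2 := by
  have h1 : ‖a + b‖ ^ 2 ≤ 2 * ‖a‖ ^ 2 + 2 * ‖b‖ ^ 2 := by
    have h2 := norm_add_le a b
    have h3 := norm_nonneg (a + b)
    nlinarith [sq_nonneg (‖a‖ - ‖b‖)]
  have h7 := ENNReal.ofReal_le_ofReal h1
  rw [ENNReal.ofReal_pow (norm_nonneg _), ofReal_norm, ENNReal.ofReal_add (by positivity)
    (by positivity), ENNReal.ofReal_mul (by norm_num), ENNReal.ofReal_mul (by norm_num),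
    ENNReal.ofReal_pow (norm_nonneg _), ENNReal.ofReal_pow (norm_nonneg _), ofReal_norm,
    ofReal_norm] at h7
  simpa using h7

/-- products over the cube -/
theorem lint_succ (μ : Measure ℝ) [SigmaFinite μ] (k : ℕ) (g : ℝ × (Fin k → ℝ) → ℝ≥0∞)
    (hg : Measurable g) (G : (Fin (k + 1) → ℝ) → ℝ≥0∞)
    (hG : ∀ x, G x = g (x 0, fun i => x i.succ)) :
    ∫⁻ x, G x ∂(Measure.pi fun _ : Fin (k + 1) => μ) =
      ∫⁻ p, g p ∂(μ.prod (Measure.pi fun _ : Fin k => μ)) := by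
  have h := (measurePreserving_piFinSuccAbove (fun _ : Fin (k + 1) => μ) 0).lintegral_comp hg
  rw [← h]
  refine lintegral_congr fun x => ?_
  rw [hG]
  congr 1

theorem lint_prod_le (μ : Measure ℝ) [SigmaFinite μ] (f : ℝ → ℝ≥0∞) (hf : Measurable f)
    (B : ℝ) (hB : 0 ≤ B) (h : ∫⁻ a, f a ∂μ ≤ ENNReal.ofReal B) (k : ℕ) :
    ∫⁻ x : Fin k → ℝ, ∏ i, f (x i) ∂(Measure.pi (fun _ => μ)) ≤ ENNReal.ofReal (B ^ k) := by
  induction k with
  | zero =>
    rw [Measure.pi_of_empty]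
    simp
  | succ k ih =>
    have h2 : Measurable (fun x : Fin k → ℝ => ∏ i, f (x i)) :=
      Finset.measurable_prod _ (fun i _ => hf.comp (measurable_pi_apply i))
    rw [lint_succ μ k (fun p => f p.1 * ∏ i, f (p.2 i))
      ((hf.comp measurable_fst).mul (h2.comp measurable_snd)) _
      (fun x => by rw [Fin.prod_univ_succ]),
      lintegral_prod_mul hf.aemeasurable h2.aemeasurable, pow_succ, mul_comm (B ^ k),
      ENNReal.ofReal_mul hB]
    exact mul_le_mul' h ih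

theorem prod_moment (μ : Measure ℝ) [SigmaFinite μ] (u y : ℝ → ℂ) (hu : Measurable u)
    (hy : Measurable y) (B D : ℝ) (hB : 1 ≤ B) (hD : 0 ≤ D)
    (h1 : ∫⁻ a, ‖u a‖ₑ ^ 2 ∂μ ≤ ENNReal.ofReal B) (h2 : ∫⁻ a, ‖y a‖ₑ ^ 2 ∂μ ≤ ENNReal.ofReal B)
    (h3 : ∫⁻ a, ‖u a - y a‖ₑ ^ 2 ∂μ ≤ ENNReal.ofReal D) (k : ℕ) :
    ∫⁻ x : Fin k → ℝ, ‖∏ i, u (x i) - ∏ i, y (x i)‖ₑ ^ 2 ∂(Measure.pi (fun _ => μ)) ≤
      ENNReal.ofReal ((4 * B) ^ k * D) := by
  induction k with
  | zero =>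
    rw [Measure.pi_of_empty]
    simp
  | succ k ih =>
    have hU : Measurable (fun x : Fin k → ℝ => ∏ i, u (x i)) :=
      Finset.measurable_prod _ (fun i _ => hu.comp (measurable_pi_apply i))
    have hY : Measurable (fun x : Fin k → ℝ => ∏ i, y (x i)) :=
      Finset.measurable_prod _ (fun i _ => hy.comp (measurable_pi_apply i))
    have hYk : ∫⁻ x : Fin k → ℝ, ‖∏ i, y (x i)‖ₑ ^ 2 ∂(Measure.pi (fun _ => μ)) ≤
        ENNReal.ofReal (B ^ k) := by
      refine le_trans (le_of_eq ?_) (lint_prod_le μ (fun a => ‖y a‖ₑ ^ 2) (hy.enorm.pow_const 2) B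
        (by linarith) h2 k)
      refine lintegral_congr fun x => ?_
      rw [Finset.prod_pow, ← ofReal_norm, norm_prod,
        ENNReal.ofReal_prod_of_nonneg (fun i _ => norm_nonneg _)]
      simp only [ofReal_norm]
    set g : ℝ × (Fin k → ℝ) → ℝ≥0∞ := fun p =>
      ‖u p.1 * ∏ i, u (p.2 i) - y p.1 * ∏ i, y (p.2 i)‖ₑ ^ 2 with hg
    have hgm : Measurable g := by
      refine Measurable.pow_const (Measurable.enorm ?_) 2
      exact ((hu.comp measurable_fst).mul (hU.comp measurable_snd)).sub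
        ((hy.comp measurable_fst).mul (hY.comp measurable_snd))
    rw [lint_succ μ k g hgm _ (fun x => by rw [hg, Fin.prod_univ_succ, Fin.prod_univ_succ])]
    have hle : ∀ p, g p ≤ 2 * (‖u p.1‖ₑ ^ 2 * ‖∏ i, u (p.2 i) - ∏ i, y (p.2 i)‖ₑ ^ 2) +
        2 * (‖u p.1 - y p.1‖ₑ ^ 2 * ‖∏ i, y (p.2 i)‖ₑ ^ 2) := by
      intro p
      have e : u p.1 * ∏ i, u (p.2 i) - y p.1 * ∏ i, y (p.2 i) =
          u p.1 * (∏ i, u (p.2 i) - ∏ i, y (p.2 i)) + (u p.1 - y p.1) * ∏ i, y (p.2 i) := by ring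
      rw [hg]
      simp only
      rw [e]
      refine (enorm_add_sq _ _).trans (le_of_eq ?_)
      rw [enorm_mul, enorm_mul, mul_pow, mul_pow]
    refine (lintegral_mono hle).trans ?_
    have m1 : Measurable (fun p : ℝ × (Fin k → ℝ) =>
        2 * (‖u p.1‖ₑ ^ 2 * ‖∏ i, u (p.2 i) - ∏ i, y (p.2 i)‖ₑ ^ 2)) := by
      refine Measurable.const_mul ?_ 2
      exact ((hu.comp measurable_fst).enorm.pow_const 2).mul
        (((hU.comp measurable_snd).sub (hY.comp measurable_snd)).enorm.pow_const 2)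
    have hUY : Measurable (fun x : Fin k → ℝ => ∏ i, u (x i) - ∏ i, y (x i)) := hU.sub hY
    have huy : Measurable (fun a => u a - y a) := hu.sub hy
    rw [lintegral_add_left m1, lintegral_const_mul' _ _ (by norm_num),
      lintegral_const_mul' _ _ (by norm_num),
      lintegral_prod_mul (hu.enorm.pow_const 2).aemeasurable
        (hUY.enorm.pow_const 2).aemeasurable,
      lintegral_prod_mul (huy.enorm.pow_const 2).aemeasurable
        (hY.enorm.pow_const 2).aemeasurable]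
    have hB0 : 0 ≤ B := by linarith
    calc 2 * ((∫⁻ a, ‖u a‖ₑ ^ 2 ∂μ) *
          ∫⁻ x : Fin k → ℝ, ‖∏ i, u (x i) - ∏ i, y (x i)‖ₑ ^ 2 ∂(Measure.pi (fun _ => μ))) +
          2 * ((∫⁻ a, ‖u a - y a‖ₑ ^ 2 ∂μ) *
          ∫⁻ x : Fin k → ℝ, ‖∏ i, y (x i)‖ₑ ^ 2 ∂(Measure.pi (fun _ => μ)))
        ≤ 2 * (ENNReal.ofReal B * ENNReal.ofReal ((4 * B) ^ k * D)) +
          2 * (ENNReal.ofReal D * ENNReal.ofReal (B ^ k)) := by gcongr
      _ = ENNReal.ofReal (2 * (B * ((4 * B) ^ k * D)) + 2 * (D * B ^ k)) := by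
          rw [ENNReal.ofReal_add (by positivity) (by positivity),
            ENNReal.ofReal_mul (p := 2) (by norm_num), ENNReal.ofReal_mul (p := 2) (by norm_num),
            ENNReal.ofReal_mul (p := B) hB0, ENNReal.ofReal_mul (p := D) hD]
          simp
      _ ≤ ENNReal.ofReal ((4 * B) ^ (k + 1) * D) := by
          apply ENNReal.ofReal_le_ofReal
          have h4 : B ^ k ≤ (4 * B) ^ k := pow_le_pow_left₀ hB0 (by linarith) k
          have h5 : D * B ^ k ≤ B * ((4 * B) ^ k * D) := by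
            calc D * B ^ k ≤ D * (4 * B) ^ k := mul_le_mul_of_nonneg_left h4 hD
              _ = 1 * ((4 * B) ^ k * D) := by ring
              _ ≤ B * ((4 * B) ^ k * D) := mul_le_mul_of_nonneg_right hB (by positivity)
          have e : (4 * B) ^ (k + 1) * D = 4 * (B * ((4 * B) ^ k * D)) := by ring
          rw [e]
          linarith

end

end Pool.Agent.J4H6.GS5
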