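import Pool.Agent.J4H38.GS.Stm5
import Pool.Agent.J4H6.GS5.Mean

/-!
# Project GS5 (helper38): (REM), by helper6
-/

set_option autoImplicit false

open MeasureTheory Set Filter Topology
open scoped ENNReal Real

namespace Pool.Agent.J4H6.GS5

open Pool.Agent.J4H38.GS

noncomputable section

theorem coe_ne' {a : ℝ} (h0 : 0 < a) (h1 : a < 1) : (a : UnitAddCircle) ≠ 0 := by
  have : Fact ((0 : ℝ) < 1) := ⟨one_pos⟩
  intro h
  have h3 : a ∈ Ico (0 : ℝ) 1 := ⟨h0.le, h1⟩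
  exact h0.ne' ((AddCircle.coe_eq_zero_iff_of_mem_Ico h3).mp h)

theorem ae_pos' (k : ℕ) : ∀ᵐ α ∂(volume.restrict (cube k)), ∀ i : Fin k, 0 < α i ∧ α i < 1 := by
  have hmeas : MeasurableSet (cube k) := MeasurableSet.univ_pi fun _ => measurableSet_Ico
  have h1 : ∀ᵐ α ∂(volume.restrict (cube k)), ∀ i : Fin k, α i ≠ 0 := by
    apply ae_restrict_of_ae
    rw [ae_all_iff]
    intro i
    exact Measure.ae_eval_ne (μ := fun _ : Fin k => (volume : Measure ℝ)) i 0
  filter_upwards [h1, ae_restrict_mem hmeas] with α h2 h3 i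
  have h4 := h3 i (Set.mem_univ i)
  exact ⟨lt_of_le_of_ne h4.1 (Ne.symm (h2 i)), h4.2⟩

theorem cube_pi (k : ℕ) : (volume.restrict (cube k) : Measure (Fin k → ℝ)) =
    Measure.pi (fun _ => volume.restrict (Ico (0 : ℝ) 1)) := by
  unfold cube
  rw [volume_pi, Measure.restrict_pi_pi]

theorem SN_meas (N : ℕ) : Measurable (fun p : ℝ × ℂ => SN N p.1 p.2) := by
  unfold SN
  refine Finset.measurable_sum _ (fun n _ => ?_)
  refine Measurable.mul (by fun_prop) ?_
  exact measurable_const.pow (by fun_prop)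

theorem SN_diff (N : ℕ) (a : ℝ) : Differentiable ℂ (SN N a) := by
  unfold SN
  refine Differentiable.fun_sum fun n hn => ?_
  have hn1 : (n : ℂ) ≠ 0 := by
    have := (Finset.mem_Icc.mp hn).1
    exact_mod_cast (by omega : n ≠ 0)
  exact (differentiable_id.neg.const_cpow (Or.inl hn1)).const_mul _

theorem expZeta_diff {a : ℝ} (h0 : 0 < a) (h1 : a < 1) :
    Differentiable ℂ (HurwitzZeta.expZeta (a : UnitAddCircle)) :=
  HurwitzZeta.differentiable_expZeta_of_ne_zero (coe_ne' h0 h1)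

theorem arg_meas (k : ℕ) (i : Fin k) :
    Measurable (fun p : (Fin k → ℝ) × (ℝ × ℝ) => (p.1 i, (p.2.1 : ℂ) + p.2.2 * Complex.I)) := by
  refine Measurable.prodMk ((measurable_pi_apply i).comp measurable_fst) ?_
  fun_prop

theorem SN_meas2 (k N : ℕ) (i : Fin k) :
    Measurable (fun p : (Fin k → ℝ) × (ℝ × ℝ) => SN N (p.1 i) ((p.2.1 : ℂ) + p.2.2 * Complex.I)) := by
  have h := (SN_meas N).comp (arg_meas k i)
  exact h

theorem SN_meas1 (N : ℕ) (w : ℂ) : Measurable (fun a : ℝ => SN N a w) := by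
  have h1 : Measurable (fun a : ℝ => (a, w)) := measurable_id.prodMk measurable_const
  have h := (SN_meas N).comp h1
  exact h

/-- joint measurability of partial products -/
theorem jm (hEZ : S_EZ) (k : ℕ) (S : Finset (Fin k)) :
    AEMeasurable (fun p : (Fin k → ℝ) × (ℝ × ℝ) =>
      ∏ i ∈ S, HurwitzZeta.expZeta (p.1 i : UnitAddCircle) ((p.2.1 : ℂ) + p.2.2 * Complex.I))
      ((volume.restrict (cube k)).prod (volume.restrict {p : ℝ × ℝ | 1 / 2 < p.1})) := by
  refine aemeasurable_of_tendsto_metrizable_ae atTop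
    (f := fun (N : ℕ) (p : (Fin k → ℝ) × (ℝ × ℝ)) =>
      ∏ i ∈ S, SN N (p.1 i) ((p.2.1 : ℂ) + p.2.2 * Complex.I)) (fun N => ?_) ?_
  · refine Measurable.aemeasurable ?_
    exact Finset.measurable_prod _ (fun i _ => SN_meas2 k N i)
  · have hms : MeasurableSet {p : ℝ × ℝ | 1 / 2 < p.1} := measurableSet_lt (by fun_prop) (by fun_prop)
    have h1 := Measure.quasiMeasurePreserving_fst (μ := volume.restrict (cube k))
      (ν := volume.restrict {p : ℝ × ℝ | 1 / 2 < p.1}) |>.ae (ae_pos' k)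
    have h2 := Measure.quasiMeasurePreserving_snd (μ := volume.restrict (cube k))
      (ν := volume.restrict {p : ℝ × ℝ | 1 / 2 < p.1}) |>.ae (ae_restrict_mem hms)
    filter_upwards [h1, h2] with p hp1 hp2
    refine tendsto_finsetProd _ fun i _ => ?_
    refine hEZ (p.1 i) (hp1 i).1 (hp1 i).2 _ ?_
    have hp3 : 1 / 2 < p.2.1 := hp2
    have e : ((p.2.1 : ℂ) + p.2.2 * Complex.I).re = p.2.1 := by simp
    rw [e]
    linarith

/-- measurability in one variable -/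
theorem u_meas (hEZ : S_EZ) (w : ℂ) (hw : 0 < w.re) :
    AEMeasurable (fun a : ℝ => HurwitzZeta.expZeta (a : UnitAddCircle) w)
      (volume.restrict (Ico (0 : ℝ) 1)) := by
  refine aemeasurable_of_tendsto_metrizable_ae atTop
    (f := fun (N : ℕ) (a : ℝ) => SN N a w) (fun N => ?_) ?_
  · exact (SN_meas1 N w).aemeasurable
  · have h1 : ∀ᵐ a ∂(volume.restrict (Ico (0 : ℝ) 1)), a ≠ 0 := by
      apply ae_restrict_of_ae
      exact Measure.ae_ne volume 0
    filter_upwards [h1, ae_restrict_mem measurableSet_Ico] with a ha0 ha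
    exact hEZ a (lt_of_le_of_ne ha.1 (Ne.symm ha0)) ha.2 w hw

/-- the moment of the difference of the products -/
theorem mom (hEZ : S_EZ) (hLA : S_LA) (k : ℕ) (x : ℝ) (hx : 1 / 2 < x) (w : ℂ) (hw : x ≤ w.re)
    (N : ℕ) (hN : 1 ≤ N) :
    ∫⁻ α in cube k, ‖DZ α w - DN N α w‖ₑ ^ 2 ≤
      ENNReal.ofReal ((4 * (1 + 1 / (2 * x - 1))) ^ k * ((N : ℝ) ^ (1 - 2 * x) / (2 * x - 1))) := by
  have hw2 : 1 / 2 < w.re := by linarith
  have hx0 : 0 < 2 * x - 1 := by linarith
  have hw0 : 0 < 2 * w.re - 1 := by linarith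
  obtain ⟨hA1, hA2, hA3⟩ := hLA w hw2
  have hBle : 1 + 1 / (2 * w.re - 1) ≤ 1 + 1 / (2 * x - 1) := by
    have : 1 / (2 * w.re - 1) ≤ 1 / (2 * x - 1) := one_div_le_one_div_of_le hx0 (by linarith)
    linarith
  have hN1 : (1 : ℝ) ≤ N := by exact_mod_cast hN
  have hDle : (N : ℝ) ^ (1 - 2 * w.re) / (2 * w.re - 1) ≤ (N : ℝ) ^ (1 - 2 * x) / (2 * x - 1) := by
    apply div_le_div₀ (by positivity) _ hx0 (by linarith)
    exact Real.rpow_le_rpow_of_exponent_le hN1 (by linarith)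
  set μ : Measure ℝ := volume.restrict (Ico (0 : ℝ) 1) with hμ
  have hu := u_meas hEZ w (by linarith)
  set u' := hu.mk _ with hu'
  have huu : (fun a : ℝ => HurwitzZeta.expZeta (a : UnitAddCircle) w) =ᵐ[μ] u' := hu.ae_eq_mk
  have hum : Measurable u' := hu.measurable_mk
  have hy : Measurable (fun a : ℝ => SN N a w) := SN_meas1 N w
  have g1 : ∫⁻ a, ‖u' a‖ₑ ^ 2 ∂μ ≤ ENNReal.ofReal (1 + 1 / (2 * x - 1)) := by
    refine le_trans (le_of_eq ?_) (hA3.trans (ENNReal.ofReal_le_ofReal hBle))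
    refine lintegral_congr_ae ?_
    filter_upwards [huu] with a ha
    rw [← ha]
  have g2 : ∫⁻ a, ‖SN N a w‖ₑ ^ 2 ∂μ ≤ ENNReal.ofReal (1 + 1 / (2 * x - 1)) :=
    (hA2 N).trans (ENNReal.ofReal_le_ofReal hBle)
  have g3 : ∫⁻ a, ‖u' a - SN N a w‖ₑ ^ 2 ∂μ ≤ ENNReal.ofReal ((N : ℝ) ^ (1 - 2 * x) / (2 * x - 1)) := by
    refine le_trans (le_of_eq ?_) ((hA1 N hN).trans (ENNReal.ofReal_le_ofReal hDle))
    refine lintegral_congr_ae ?_
    filter_upwards [huu] with a ha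
    rw [← ha]
  have h := prod_moment μ u' (fun a => SN N a w) hum hy (1 + 1 / (2 * x - 1))
    ((N : ℝ) ^ (1 - 2 * x) / (2 * x - 1)) (by
      have : 0 < 1 / (2 * x - 1) := by positivity
      linarith) (by positivity) g1 g2 g3 k
  refine le_trans (le_of_eq ?_) h
  rw [cube_pi]
  refine lintegral_congr_ae ?_
  have hae : ∀ᵐ α ∂(Measure.pi fun _ : Fin k => μ), ∀ i,
      HurwitzZeta.expZeta (α i : UnitAddCircle) w = u' (α i) := by
    rw [ae_all_iff]
    intro i
    exact (Measure.quasiMeasurePreserving_eval (fun _ : Fin k => μ) i).ae huu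
  filter_upwards [hae] with α hα
  unfold DZ DN
  rw [Finset.prod_congr rfl fun i _ => hα i]

theorem NJ_ge (η : ℝ) (j : ℕ) : (2 : ℝ) ^ (η * j) ≤ NJ η j := Nat.le_ceil _

theorem NJ_pos (η : ℝ) (j : ℕ) : 1 ≤ NJ η j := by
  have h : (0 : ℝ) < NJ η j := lt_of_lt_of_le (by positivity) (NJ_ge η j)
  exact_mod_cast h

/-- **(REM)** -/
theorem t_REM : S_EZ → S_LA → S_REM := by
  intro hEZ hLA k x₀ x₁ η hx₀ hx hη
  set x : ℝ := (1 / 2 + x₀) / 2 with hxd
  have hx1 : 1 / 2 < x := by rw [hxd]; linarith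
  have hx2 : 0 < 2 * x - 1 := by linarith
  set c : ℝ := η * (2 * x - 1) with hc
  have hc0 : 0 < c := by positivity
  set K : ℝ := (4 * (1 + 1 / (2 * x - 1))) ^ k / (2 * x - 1) with hK
  have hK0 : 0 ≤ K := by positivity
  refine ⟨c / 2, by positivity, ?_⟩
  have main := ae_lines (volume.restrict (cube k))
    (fun (j : ℕ) (α : Fin k → ℝ) (v : ℂ) => DZ α v - DN (NJ η j) α v) x₀ x₁ c (c / 2) K hx₀ hx
    (by positivity) hK0 ?_ ?_ ?_
  · filter_upwards [main] with α hα Y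
    obtain ⟨C, hC, h⟩ := hα Y
    refine ⟨C, hC, fun j b hb => ?_⟩
    refine (h j b hb.1 hb.2.1 hb.2.2).trans (le_of_eq ?_)
    congr 2
    ring
  · filter_upwards [ae_pos' k] with α hα j
    refine Differentiable.sub ?_ ?_
    · unfold DZ
      exact Differentiable.fun_finsetProd fun i _ => expZeta_diff (hα i).1 (hα i).2
    · unfold DN
      exact Differentiable.fun_finsetProd fun i _ => SN_diff _ _
  · intro j
    refine AEMeasurable.pow_const (AEMeasurable.enorm ?_) 2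
    refine AEMeasurable.sub (jm hEZ k Finset.univ) ?_
    refine Measurable.aemeasurable ?_
    unfold DN
    exact Finset.measurable_prod _ (fun i _ => SN_meas2 k _ i)
  · intro j v hv
    refine (mom hEZ hLA k x hx1 v hv (NJ η j) (NJ_pos η j)).trans ?_
    apply ENNReal.ofReal_le_ofReal
    have h1 : ((NJ η j : ℕ) : ℝ) ^ (1 - 2 * x) ≤ (2 : ℝ) ^ (-c * j) := by
      calc ((NJ η j : ℕ) : ℝ) ^ (1 - 2 * x) ≤ ((2 : ℝ) ^ (η * j)) ^ (1 - 2 * x) :=
            Real.rpow_le_rpow_of_nonpos (by positivity) (NJ_ge η j) (by linarith)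
        _ = (2 : ℝ) ^ (-c * j) := by
            rw [← Real.rpow_mul (by norm_num)]
            congr 1
            rw [hc]
            ring
    calc (4 * (1 + 1 / (2 * x - 1))) ^ k * (((NJ η j : ℕ) : ℝ) ^ (1 - 2 * x) / (2 * x - 1))
        ≤ (4 * (1 + 1 / (2 * x - 1))) ^ k * ((2 : ℝ) ^ (-c * j) / (2 * x - 1)) := by gcongr
      _ = K * (2 : ℝ) ^ (-c * j) := by rw [hK]; ring

end

end Pool.Agent.J4H6.GS5
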